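import Pool.Agent.U41.PH.FinE

/-!
MP_4d1008_ag: regular proper models over the integers, over all number fields simultaneously, of the
arithmetic schemes whose function field is that of a hypersurface, for a positive proportion of all
hypersurfaces of every degree `d ≥ 3` and every dimension.

1. Among the forms of degree `d` with integral coefficients of absolute value at most `H` at least
   the proportion `δ > 0` defines, over every number field `K`, a smooth hypersurface all of whose
   arithmetic models have a regular model proper over the integers, for all large `H`.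
2. For every `ε > 0` there is `Y₀` such that for `Y ≥ Y₀` in every residue class modulo `M`, if the
   prime divisors of `M` are at most `Y`, at least the proportion `1 - ε` of the forms has the
   following property. Over every number field `K` over which the form has a good equation at the
   primes over the `p ≤ Y` (an integral equation which is regular there, or regular outside one
   rational point where it has an ordinary double point of any depth), it is as in 1. There is no
   condition at the primes over the `p > Y`.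
3. Every smooth form of degree at least two over a number field with a good equation at every prime
   is as in 1.
-/

set_option autoImplicit false

open AlgebraicGeometry CategoryTheory CategoryTheory.Limits MvPolynomial

open scoped NumberField

namespace Pool.Agent.Results.MP_4d1008_ag.AllNumberFields

/-- The polynomial in the variables `X j`, `j ≠ s`, obtained from `H` by setting `X s = 1`: the
equation of the hypersurface `H = 0` in the chart `X s ≠ 0` of the projective space over `R`. -/
noncomputable def dehom {R : Type} [CommRing R] {m : ℕ} (s : Fin m) (H : MvPolynomial (Fin m) R) :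
    MvPolynomial {j : Fin m // j ≠ s} R :=
  aeval (fun j => if h : j = s then 1 else X ⟨j, h⟩) H

/-- The ideal `Q` of the polynomial ring over `R` lies over `𝔭`. -/
def LiesAbove {R σ : Type} [CommRing R] (𝔭 : Ideal R) (Q : Ideal (MvPolynomial σ R)) : Prop :=
  ∀ r : R, C r ∈ Q ↔ r ∈ 𝔭

/-- For a prime `Q` of `A`, the element `f` is not in the square of the maximal ideal of the
localization of `A` at `Q`. -/
def NotInSquare {A : Type} [CommRing A] (Q : Ideal A) (f : A) : Prop :=
  ∀ h, h ∉ Q → h * f ∉ Q ^ 2

/-- The scheme `H = 0` in the projective space over `R` is regular at its points over `𝔭` in the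
chart `X s ≠ 0`: for every prime `Q` of the polynomial ring of the chart lying over `𝔭` and
containing the equation, the equation is not in the square of the maximal ideal of the localization
at `Q`. -/
def IsRegularInChart {R : Type} [CommRing R] (𝔭 : Ideal R) {m : ℕ} (H : MvPolynomial (Fin m) R)
    (s : Fin m) : Prop :=
  ∀ Q : Ideal (MvPolynomial {j : Fin m // j ≠ s} R), Q.IsPrime →
    LiesAbove 𝔭 Q → dehom s H ∈ Q → NotInSquare Q (dehom s H)

/-- The scheme `H = 0` in the projective space over `R` is regular at its points over `𝔭`. -/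
def IsRegularAt {R : Type} [CommRing R] (𝔭 : Ideal R) {m : ℕ} (H : MvPolynomial (Fin m) R) :
    Prop :=
  ∀ s : Fin m, IsRegularInChart 𝔭 H s

/-- The scheme `H = 0` in the projective space over `R`, with coordinates `X 0, ..., X m`, is
regular at its points over `𝔭` outside the point `(1 : 0 : ... : 0)`, where it has an ordinary
double point: `2` is not in `𝔭`, and for the polynomial `f` obtained from `H` by setting `X 0 = 1`
there is `k ≥ 2` such that the constant coefficient of `f` is in `𝔭 ^ k` but not in `𝔭 ^ (k + 1)`,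
the linear coefficients are in `𝔭 ^ k`, and the quadratic part of `f` is nondegenerate modulo `𝔭`:
every variable, multiplied by a constant outside of `𝔭`, is in the ideal generated by the partial
derivatives of the quadratic part. -/
structure HasDoublePointAt {R : Type} [CommRing R] (𝔭 : Ideal R) {m : ℕ}
    (H : MvPolynomial (Fin (m + 1)) R) : Prop where
  two : (2 : R) ∉ 𝔭
  depth : ∃ k, 2 ≤ k ∧ constantCoeff (dehom 0 H) ∈ 𝔭 ^ k ∧
    constantCoeff (dehom 0 H) ∉ 𝔭 ^ (k + 1) ∧
    ∀ l, coeff (Finsupp.single l 1) (dehom 0 H) ∈ 𝔭 ^ k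
  nondegenerate : ∀ l, ∃ δ : R, δ ∉ 𝔭 ∧ C δ * X l ∈
    Ideal.span (Set.range fun j => pderiv j (homogeneousComponent 2 (dehom 0 H)))
  regular : ∀ s, s ≠ 0 → IsRegularInChart 𝔭 H s

/-- The partial derivatives of `G` have no common zero (over an algebraic closure) but the origin:
every variable has a power in the ideal they generate. -/
def IsSmooth {K : Type} [Field K] {m : ℕ} (G : MvPolynomial (Fin m) K) : Prop :=
  ∀ i, X i ∈ (Ideal.span (Set.range fun j => pderiv j G)).radical

/-- `H` is obtained from `G` by the linear change of coordinates `T` and multiplication with the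
scalar `l`. -/
def IsEquation {R K : Type} [CommRing R] [Field K] [Algebra R K] {m : ℕ}
    (G : MvPolynomial (Fin m) K) (H : MvPolynomial (Fin m) R) (l : K)
    (T : Matrix (Fin m) (Fin m) K) : Prop :=
  map (algebraMap R K) H = C l * aeval (fun i => ∑ j, C (T i j) * X j) G

/-- A linear change of coordinates over the number field and a scalar turn `G` into a form with
coefficients in `R` whose hypersurface is regular at its points over `𝔭`, or is regular there
outside the point `(1 : 0 : ... : 0)`, where it has an ordinary double point. -/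
def HasGoodEquationAt {R K : Type} [CommRing R] [Field K] [Algebra R K] (𝔭 : Ideal R) {m : ℕ}
    (G : MvPolynomial (Fin (m + 1)) K) : Prop :=
  ∃ (H : MvPolynomial (Fin (m + 1)) R) (l : K) (T T' : Matrix (Fin (m + 1)) (Fin (m + 1)) K),
    l ≠ 0 ∧ T * T' = 1 ∧ IsEquation G H l T ∧ (IsRegularAt 𝔭 H ∨ HasDoublePointAt 𝔭 H)

/-- The exponents of the monomials of degree `d` in `m` variables. -/
abbrev Exponent (m d : ℕ) : Type := {α : Fin m →₀ ℕ // α.degree = d}

/-- The form of degree `d` over `K` with the integral coefficients `a`. -/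
noncomputable def form (K : Type) [Field K] {m d : ℕ} (a : Exponent m d → ℤ) :
    MvPolynomial (Fin m) K :=
  map (algebraMap ℤ K) (∑ᶠ α : Exponent m d, monomial α.1 (a α))

/-- `F` is a function field of the hypersurface `G(x_0, ..., x_(n+1)) = 0`: it is generated over `K`
by elements `x_0, ..., x_(n+1)` with `x_0 = 1` and `G(x_0, ..., x_(n+1)) = 0`, and it has
transcendence degree `n` over `K`. -/
def IsFunctionField {K : Type} [Field K] {n : ℕ} (G : MvPolynomial (Fin (n + 2)) K)
    (F : Type) [Field F] [Algebra K F] : Prop :=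
  ∃ x : Fin (n + 2) → F, x 0 = 1 ∧ aeval x G = 0 ∧
    IntermediateField.adjoin K (Set.range x) = ⊤ ∧ Algebra.trdeg K F = n

/-- There is a regular integral scheme, proper over the integers, with the function field of `Y`. -/
def HasRegularProperModel (Y : Scheme.{0}) [IsIntegral Y] : Prop :=
  ∃ (X' : Scheme.{0}) (_ : IsIntegral X') (g : X' ⟶ Spec (CommRingCat.of ℤ)),
    IsProper g ∧
    (∀ x : X',
      (((Module.finrank (IsLocalRing.ResidueField (X'.presheaf.stalk x))
          (IsLocalRing.CotangentSpace (X'.presheaf.stalk x)) : ℕ∞)) : WithBot ℕ∞)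
        = ringKrullDim (X'.presheaf.stalk x)) ∧
    Nonempty (X'.functionField ≃+* Y.functionField)

/-- The hypersurface `G = 0` has a function field, and every integral scheme of finite type over the
integers whose function field is isomorphic to a function field of `G = 0` has a regular model
proper over the integers. -/
def HypersurfaceIsResolvable {K : Type} [Field K] {n : ℕ} (G : MvPolynomial (Fin (n + 2)) K) :
    Prop :=
  (∃ (F : Type) (_ : Field F) (_ : Algebra K F), IsFunctionField G F) ∧
  ∀ (F : Type) [Field F] [Algebra K F], IsFunctionField G F →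
  ∀ (Y : Scheme.{0}) [IsIntegral Y] (s : Y ⟶ Spec (CommRingCat.of ℤ)),
    LocallyOfFiniteType s → QuasiCompact s → Nonempty (Y.functionField ≃+* F) →
    HasRegularProperModel Y

/-- Over every number field `K` the form with the integral coefficients `a` defines a smooth
hypersurface which is resolvable in the sense above. -/
def IsGoodOverAllNumberFields {n d : ℕ} (a : Exponent (n + 3) d → ℤ) : Prop :=
  ∀ (K : Type) [Field K] [NumberField K], IsSmooth (form K a) ∧ HypersurfaceIsResolvable (n := n + 1) (form K a)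

/-- For every number field `K`: if the form with the integral coefficients `a` has a good equation over
`K` at all primes over the prime numbers `p ≤ Y`, then it defines over `K` a smooth hypersurface
which is resolvable in the sense above. -/
def IsGoodWhereverGoodUpTo (Y : ℕ) {n d : ℕ} (a : Exponent (n + 3) d → ℤ) : Prop :=
  ∀ (K : Type) [Field K] [NumberField K],
    (∀ (p : ℕ) (𝔭 : Ideal (𝓞 K)), p.Prime → p ≤ Y → 𝔭.IsPrime → (p : 𝓞 K) ∈ 𝔭 →
      HasGoodEquationAt 𝔭 (form K a)) →
    IsSmooth (form K a) ∧ HypersurfaceIsResolvable (n := n + 1) (form K a)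

theorem HasGoodEquationAt.locAt {R K : Type} [CommRing R] [Field K] [Algebra R K] {𝔭 : Ideal R}
    {m : ℕ} {G : MvPolynomial (Fin (m + 2)) K} (h : HasGoodEquationAt 𝔭 G) :
    Pool.Agent.U41.OD.LocAt 𝔭 G := by
  obtain ⟨H, l, T, T', hl, hT, hH, hreg⟩ := h
  refine ⟨H, l, T, T', hl, hT, hH, ?_⟩
  rcases hreg with h1 | h1
  · exact Or.inl (Pool.Agent.TH214.RM.Reg.crit h1)
  · exact Or.inr ⟨h1.two, h1.depth, h1.nondegenerate,
      fun s hs Q hQ hC hd => Or.inr (h1.regular s hs Q hQ hC hd)⟩

theorem model {K : Type} [Field K] [NumberField K] {n d : ℕ} (hd : 2 ≤ d)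
    (G : MvPolynomial (Fin (n + 3)) K) (hG : G.IsHomogeneous d) (hsm : IsSmooth G)
    (hloc : Pool.Agent.U41.OD.LocNode (𝓞 K) G) : HypersurfaceIsResolvable (n := n + 1) G := by
  refine ⟨?_, ?_⟩
  · obtain ⟨F, _, _, x, h1, h2, h3, h4⟩ :=
      Pool.Agent.U234.RM.exists_field_homogeneous (n := n + 1) (by omega) G d hd hG hsm
    exact ⟨F, _, _, x, h1, h2, h3, h4⟩
  · rintro F _ _ ⟨x, h1, h2, h3, h4⟩ Y _ s _ _ ⟨ε⟩
    obtain ⟨X', hX', g, hg1, hg2, ⟨hg3⟩⟩ :=
      Pool.Agent.U41.OD.model_FN Pool.Agent.U41.OD.gm (n := n + 1) (by omega) G d hd hG hsm hloc x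
        h1 h2 h3 h4
    exact ⟨X', hX', g, hg1, hg2, ⟨hg3.trans ε.symm⟩⟩

theorem finite_bounded {n d : ℕ} (H : ℕ) :
    {a : Exponent n d → ℤ | ∀ α, |a α| ≤ H}.Finite := by
  have := Pool.Agent.U41.PH.finite_exps n d
  refine Set.Finite.subset (Set.Finite.pi' fun _ : Exponent n d =>
    Set.finite_Icc (-(H : ℤ)) (H : ℤ)) fun a ha α => ?_
  exact Set.mem_Icc.2 (abs_le.1 (ha α))

theorem result :
    (∀ n d : ℕ, 3 ≤ d → ∃ δ : ℝ, 0 < δ ∧ ∃ H₀ : ℕ, ∀ H ≥ H₀,
      δ * (Set.ncard {a : Exponent (n + 3) d → ℤ | ∀ α, |a α| ≤ H} : ℝ) ≤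
        Set.ncard {a : Exponent (n + 3) d → ℤ | (∀ α, |a α| ≤ H) ∧
          IsGoodOverAllNumberFields a}) ∧
    (∀ n d : ℕ, 3 ≤ d → ∀ ε : ℝ, 0 < ε → ∃ Y₀ : ℕ, ∀ Y ≥ Y₀,
      ∀ (M : ℕ) (b : Exponent (n + 3) d → ℤ), M ≠ 0 →
      (∀ p : ℕ, p.Prime → p ∣ M → p ≤ Y) →
      ∃ H₀ : ℕ, ∀ H ≥ H₀,
        (1 - ε) * (Set.ncard {y : Exponent (n + 3) d → ℤ | ∀ α, |y α| ≤ H} : ℝ) ≤
          Set.ncard {y : Exponent (n + 3) d → ℤ | (∀ α, |y α| ≤ H) ∧
            IsGoodWhereverGoodUpTo Y fun α => b α + M * y α}) ∧
   (∀ (K : Type) [Field K] [NumberField K] (n d : ℕ), 2 ≤ d →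
      ∀ G : MvPolynomial (Fin (n + 3)) K, G.IsHomogeneous d → IsSmooth G →
      (∀ 𝔭 : Ideal (𝓞 K), 𝔭.IsPrime → 𝔭 ≠ ⊥ → HasGoodEquationAt 𝔭 G) →
      HypersurfaceIsResolvable (n := n + 1) G) := by
  refine ⟨fun n d hd => ?_, fun n d hd ε hε => ?_, fun K _ _ n d hd G hG hsm hloc =>
    model hd G hG hsm fun 𝔭 hp h0 => (hloc 𝔭 hp h0).locAt⟩
  · obtain ⟨δ, hδ, H₀, h⟩ := Pool.Agent.U41.PH.proportionE Pool.Agent.U41.PH.fa1E
      Pool.Agent.U41.PH.BPE_ok (n + 1) d hd
    refine ⟨δ, hδ, H₀, fun H hH => (h H hH).trans ?_⟩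
    rw [Nat.cast_le]
    refine Set.ncard_le_ncard ?_ ((finite_bounded H).subset fun a ha => ha.1)
    intro a ha
    refine ⟨ha.1, fun K _ _ => ?_⟩
    obtain ⟨h1, h2⟩ := ha.2 K
    exact ⟨h1, model (n := n) (by omega) _ (Pool.Agent.U41.PH.allForm_homE a) h1 h2⟩
  · obtain ⟨Y₀, h⟩ := Pool.Agent.U41.PH.str_allE Pool.Agent.U41.PH.fa1E (n + 1) d hd ε hε
    refine ⟨Y₀, fun Y hY M b hM hMY => ?_⟩
    obtain ⟨H₀, h1⟩ := h Y hY M b hM hMY
    refine ⟨H₀, fun H hH => (h1 H hH).trans ?_⟩
    rw [Nat.cast_le]
    refine Set.ncard_le_ncard ?_ ((finite_bounded H).subset fun a ha => ha.1)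
    intro y hy
    refine ⟨hy.1, fun K _ _ hloc => ?_⟩
    obtain ⟨h2, h3⟩ := hy.2 K fun p 𝔭 hp hpY hp' hpm => (hloc p 𝔭 hp hpY hp' hpm).locAt
    exact ⟨h2, model (n := n) (by omega) _
      (Pool.Agent.U41.PH.allForm_homE (fun α => b α + M * y α)) h2 h3⟩

end Pool.Agent.Results.MP_4d1008_ag.AllNumberFields
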