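import Pool.Agent.TH214.RM.Exq
import Pool.Agent.U234.RM.FF

/-!
MP_4d1008_ag: every integral scheme of finite type over `ℤ` which is birational to one of the
following smooth projective hypersurfaces over a number field, of arbitrary degree and dimension,
has a regular model proper over `ℤ`.

1. The smooth hypersurfaces `G = 0` such that for every prime `𝔭` of the number field the
   hypersurface has, in suitable coordinates over the field, an integral equation whose scheme is
   regular over `𝔭`.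
2. Towers: let `F(y_0, ..., y_r)` be a form of degree `d ≥ 3` with integral coefficients such that
   the scheme `x ^ (d-1) y_0 + F(y_0, ..., y_r) = 0` over the ring of integers is regular with smooth
   generic fibre. Then the statement holds for all the hypersurfaces
   `x_0 ^ (d-1) x_1 + x_1 ^ (d-1) x_2 + ... + x_k ^ (d-1) y_0 + F(y_0, ..., y_r) = 0`.
   The assumption on `F` holds if the schemes
   `F = 0` and `F = y_0 = 0` over the ring of integers are regular with smooth generic fibres, and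
   `F` satisfies a condition modulo `𝔭 ^ 2` at the primes `𝔭` dividing `d - 1`.
3. Cyclic coverings: `z ^ d + F(y_0, ..., y_r) = 0`, if the scheme `F(y_0, ..., y_r) = 0` over the
   ring of integers is regular with smooth generic fibre and `F` satisfies a condition modulo
   `𝔭 ^ 2` at the primes `𝔭` dividing `d`. The same holds for the cyclic coverings given by the
   towers, under the condition modulo `𝔭 ^ 2` for the first form of the tower.
4. The explicit families `F = b y_0 ^ d` and `F = b y_0 ^ d + c y_1 ^ d`. In the first one `b` is not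
   in `𝔭 ^ 2` for all primes `𝔭`, and `b + e ^ p` is not in `𝔭 ^ 2` for all `e` if the prime number
   `p` divides `d - 1` and is in `𝔭`. For every `d` all squarefree
   positive integers `b` divisible by the prime divisors of `d - 1` are possible. In the second one,
   for example, `c = 1` and `b` is a squarefree positive integer divisible by the prime divisors of
   `d (d - 1)`.
5. Towers over elliptic curves: the cubic hypersurfaces with
   `F = y_1 ^ 3 + a y_1 y_0 ^ 2 + b y_0 ^ 3`, such that the scheme with the Weierstrass equation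
   `x ^ 2 = - (y ^ 3 + a y + b)` over the ring of integers is regular.

The function field of `G = 0`, for a form `G` in `x_0, ..., x_(n+1)`, is a field generated over
`K` by elements `x_0, ..., x_(n+1)` with `x_0 = 1` and `G(x_0, ..., x_(n+1)) = 0` which has
transcendence degree `n` over `K`; the theorem includes that there are such fields.

This is the birational form, for all schemes of finite type over `ℤ` with these function fields, of
the theorem `RegularHypersurfaces` of MP_602153_ag; the local theory is that of the library folder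
`TH214.RM` (built on `W418`), the existence of the proper model is that of
`H968R2.Quad`/`H918R2.Quad`. New here: the passage from the coordinates to the function field
(helper234).
-/

set_option autoImplicit false

open AlgebraicGeometry CategoryTheory CategoryTheory.Limits MvPolynomial

open scoped NumberField

namespace Pool.Agent.Results.MP_4d1008_ag.HypersurfaceTowers

/-- The polynomial in the variables `X j`, `j ≠ s`, obtained from `H` by setting `X s = 1`: the
equation of the hypersurface `H = 0` in the chart `X s ≠ 0` of the projective space over `R`. -/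
noncomputable def dehom {R : Type} [CommRing R] {m : ℕ} (s : Fin m) (H : MvPolynomial (Fin m) R) :
    MvPolynomial {j : Fin m // j ≠ s} R :=
  aeval (fun j => if h : j = s then 1 else X ⟨j, h⟩) H

/-- The ideal `Q` of the polynomial ring over `R` lies over `𝔭`. -/
def LiesAbove {R σ : Type} [CommRing R] (𝔭 : Ideal R) (Q : Ideal (MvPolynomial σ R)) : Prop :=
  ∀ r : R, C r ∈ Q ↔ r ∈ 𝔭

/-- For a prime `Q` of `A`, the element `f` is not in the square of the maximal ideal of the
localization of `A` at `Q`. -/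
def NotInSquare {A : Type} [CommRing A] (Q : Ideal A) (f : A) : Prop :=
  ∀ h, h ∉ Q → h * f ∉ Q ^ 2

/-- The scheme `H = 0` in the projective space over `R` is regular at its points over `𝔭`: for every
chart `s` and every prime `Q` of the polynomial ring of the chart lying over `𝔭` and containing the
equation, the equation is not in the square of the maximal ideal of the localization at `Q`. -/
def IsRegularAt {R : Type} [CommRing R] (𝔭 : Ideal R) {m : ℕ} (H : MvPolynomial (Fin m) R) :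
    Prop :=
  ∀ (s : Fin m) (Q : Ideal (MvPolynomial {j : Fin m // j ≠ s} R)), Q.IsPrime →
    LiesAbove 𝔭 Q → dehom s H ∈ Q → NotInSquare Q (dehom s H)

/-- The partial derivatives of `G` have no common zero (over an algebraic closure) but the origin:
every variable has a power in the ideal they generate. -/
def IsSmooth {K : Type} [Field K] {m : ℕ} (G : MvPolynomial (Fin m) K) : Prop :=
  ∀ i, X i ∈ (Ideal.span (Set.range fun j => pderiv j G)).radical

/-- The form `F(0, y_1, ..., y_r)`. -/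
noncomputable def hyperplaneSection {R : Type} [CommRing R] {r : ℕ}
    (F : MvPolynomial (Fin (r + 1)) R) : MvPolynomial (Fin r) R :=
  aeval (Fin.cases (motive := fun _ => MvPolynomial (Fin r) R) 0 (fun i => X i)) F

/-- The ideal `q` contains the partial derivatives of `f`. -/
def IsCritical {R σ : Type} [CommRing R] (q : Ideal (MvPolynomial σ R)) (f : MvPolynomial σ R) :
    Prop :=
  ∀ j, pderiv j f ∈ q

/-- The residue ring is finite and `f + g ^ p` is not in `q ^ 2` for any `g`. -/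
def IsWildlyRegular {A : Type} [CommRing A] (p : ℕ) (q : Ideal A) (f : A) : Prop :=
  Finite (A ⧸ q) ∧ ∀ g, f + g ^ p ∉ q ^ 2

/-- The condition at a prime `𝔭` containing a prime number `p` dividing `d - 1`, on the polynomial
`f` obtained from `F` by setting `X 0 = 1`: every prime `q` of the polynomial ring which lies over
`𝔭` and contains the partial derivatives of `f` has finite residue ring, and `f + g ^ p` is not in
`q ^ 2` for any `g`. -/
def WildCondition {R : Type} [CommRing R] (𝔭 : Ideal R) (d : ℕ) {r : ℕ}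
    (F : MvPolynomial (Fin (r + 1)) R) : Prop :=
  ∀ p : ℕ, p.Prime → p ∣ d - 1 → (p : R) ∈ 𝔭 →
    ∀ q : Ideal (MvPolynomial {j : Fin (r + 1) // j ≠ 0} R), q.IsPrime →
      LiesAbove 𝔭 q → IsCritical q (dehom 0 F) → IsWildlyRegular p q (dehom 0 F)

/-- The variable `X i`, for a natural number `i`. -/
noncomputable def var (R : Type) [CommRing R] (m i : ℕ) : MvPolynomial (Fin (m + 1)) R :=
  X (Fin.ofNat (m + 1) i)

/-- The form `x_0 ^ (d-1) x_1 + x_1 ^ (d-1) x_2 + ... + x_k ^ (d-1) x_(k+1) +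
F(x_(k+1), ..., x_(k+1+r))`. -/
noncomputable def tower {R : Type} [CommRing R] (d : ℕ) {r : ℕ} (k : ℕ)
    (F : MvPolynomial (Fin (r + 1)) R) : MvPolynomial (Fin (r + k + 2)) R :=
  (∑ i ∈ Finset.range (k + 1), var R (r + k + 1) i ^ (d - 1) * var R (r + k + 1) (i + 1)) +
  rename (fun j : Fin (r + 1) => Fin.ofNat (r + k + 2) (k + 1 + j)) F

/-- `H` is obtained from `G` by the linear change of coordinates `T` and multiplication with the
scalar `l`. -/
def IsEquation {R K : Type} [CommRing R] [Field K] [Algebra R K] {m : ℕ}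
    (G : MvPolynomial (Fin m) K) (H : MvPolynomial (Fin m) R) (l : K)
    (T : Matrix (Fin m) (Fin m) K) : Prop :=
  map (algebraMap R K) H = C l * aeval (fun i => ∑ j, C (T i j) * X j) G

/-- For every prime `𝔭` a linear change of coordinates over the number field and a scalar turn `G`
into a form with integral coefficients whose hypersurface is regular at its points over `𝔭`. -/
def HasRegularEquations {K : Type} [Field K] {m : ℕ} (G : MvPolynomial (Fin m) K) : Prop :=
  ∀ 𝔭 : Ideal (𝓞 K), 𝔭.IsPrime → 𝔭 ≠ ⊥ →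
    ∃ (H : MvPolynomial (Fin m) (𝓞 K)) (l : K) (T T' : Matrix (Fin m) (Fin m) K),
      l ≠ 0 ∧ T * T' = 1 ∧ IsEquation G H l T ∧ IsRegularAt 𝔭 H

/-- The form over `K` given by a form with integral coefficients. -/
noncomputable def overK {K : Type} [Field K] {m : ℕ} (F : MvPolynomial (Fin m) (𝓞 K)) :
    MvPolynomial (Fin m) K :=
  map (algebraMap (𝓞 K) K) F

/-- The conditions on the form `F(y_0, ..., y_r)` of degree `d` with integral coefficients. -/
def IsAdmissible {K : Type} [Field K] (d : ℕ) {r : ℕ} (F : MvPolynomial (Fin (r + 1)) (𝓞 K)) :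
    Prop :=
  F.IsHomogeneous d ∧ IsSmooth (overK F) ∧ IsSmooth (overK (hyperplaneSection F)) ∧
    ∀ 𝔭 : Ideal (𝓞 K), 𝔭.IsPrime → 𝔭 ≠ ⊥ →
      IsRegularAt 𝔭 F ∧ IsRegularAt 𝔭 (hyperplaneSection F) ∧ WildCondition 𝔭 d F

/-- The scheme `x ^ (d-1) y_0 + F(y_0, ..., y_r) = 0` over the ring of integers is regular with
smooth generic fibre. -/
def HasRegularSuspension {K : Type} [Field K] (d : ℕ) {r : ℕ}
    (F : MvPolynomial (Fin (r + 1)) (𝓞 K)) : Prop :=
  IsSmooth (tower d 0 (overK F)) ∧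
    ∀ 𝔭 : Ideal (𝓞 K), 𝔭.IsPrime → 𝔭 ≠ ⊥ → IsRegularAt 𝔭 (tower d 0 F)

/-- The form `z ^ d + F`, in the variable `z` and the variables of `F`. -/
noncomputable def cyclicCover {R : Type} [CommRing R] (d : ℕ) {m : ℕ}
    (F : MvPolynomial (Fin (m + 1)) R) : MvPolynomial (Fin (m + 2)) R :=
  X 0 ^ d + rename Fin.succ F

/-- The condition at a prime `𝔭` containing a prime number `p` dividing `d`, in all charts: every
prime `q` of the polynomial ring of the chart which lies over `𝔭` and contains the partial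
derivatives of the equation `f` has finite residue ring, and `f + g ^ p` is not in `q ^ 2` for any
`g`. -/
def CyclicWildCondition {R : Type} [CommRing R] (𝔭 : Ideal R) (d : ℕ) {m : ℕ}
    (F : MvPolynomial (Fin m) R) : Prop :=
  ∀ p : ℕ, p.Prime → p ∣ d → (p : R) ∈ 𝔭 →
    ∀ (s : Fin m) (q : Ideal (MvPolynomial {j : Fin m // j ≠ s} R)), q.IsPrime →
      LiesAbove 𝔭 q → IsCritical q (dehom s F) → IsWildlyRegular p q (dehom s F)

/-- The conditions on the form `F` of degree `d` with integral coefficients for its cyclic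
covering. -/
def IsCyclicAdmissible {K : Type} [Field K] (d : ℕ) {m : ℕ} (F : MvPolynomial (Fin m) (𝓞 K)) :
    Prop :=
  F.IsHomogeneous d ∧ IsSmooth (overK F) ∧
    ∀ 𝔭 : Ideal (𝓞 K), 𝔭.IsPrime → 𝔭 ≠ ⊥ → IsRegularAt 𝔭 F ∧ CyclicWildCondition 𝔭 d F

/-- The conditions on the coefficient `b`. -/
def IsAdmissibleCoefficient {K : Type} [Field K] (d : ℕ) (b : 𝓞 K) : Prop :=
  b ≠ 0 ∧ ∀ 𝔭 : Ideal (𝓞 K), 𝔭.IsPrime → 𝔭 ≠ ⊥ → b ∉ 𝔭 ^ 2 ∧
    ∀ p : ℕ, p.Prime → p ∣ d - 1 → (p : 𝓞 K) ∈ 𝔭 → ∀ e : 𝓞 K, b + e ^ p ∉ 𝔭 ^ 2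

/-- The conditions on the pair of coefficients `b`, `c`. -/
def IsAdmissiblePair {K : Type} [Field K] (d : ℕ) (b c : 𝓞 K) : Prop :=
  b ≠ 0 ∧ c ≠ 0 ∧ ∀ 𝔭 : Ideal (𝓞 K), 𝔭.IsPrime → 𝔭 ≠ ⊥ → b * c ∉ 𝔭 ^ 2 ∧
    (∀ p : ℕ, p.Prime → p ∣ d - 1 → (p : 𝓞 K) ∈ 𝔭 → c ∉ 𝔭 ∧ ∀ e : 𝓞 K, b + e ^ p ∉ 𝔭 ^ 2) ∧
    (∀ p : ℕ, p.Prime → p ∣ d → (p : 𝓞 K) ∈ 𝔭 → ∀ e : 𝓞 K, b + c * e ^ p ∉ 𝔭 ^ 2 ∧
      c + b * e ^ p ∉ 𝔭 ^ 2)

/-- `F` is a function field of the hypersurface `G(x_0, ..., x_(n+1)) = 0`: it is generated over `K`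
by elements `x_0, ..., x_(n+1)` with `x_0 = 1` and `G(x_0, ..., x_(n+1)) = 0`, and it has
transcendence degree `n` over `K`. -/
def IsFunctionField {K : Type} [Field K] {n : ℕ} (G : MvPolynomial (Fin (n + 2)) K)
    (F : Type) [Field F] [Algebra K F] : Prop :=
  ∃ x : Fin (n + 2) → F, x 0 = 1 ∧ aeval x G = 0 ∧
    IntermediateField.adjoin K (Set.range x) = ⊤ ∧ Algebra.trdeg K F = n

/-- There is a regular integral scheme, proper over the integers, with the function field of `Y`. -/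
def HasRegularProperModel (Y : Scheme.{0}) [IsIntegral Y] : Prop :=
  ∃ (X' : Scheme.{0}) (_ : IsIntegral X') (g : X' ⟶ Spec (CommRingCat.of ℤ)),
    IsProper g ∧
    (∀ x : X',
      (((Module.finrank (IsLocalRing.ResidueField (X'.presheaf.stalk x))
          (IsLocalRing.CotangentSpace (X'.presheaf.stalk x)) : ℕ∞)) : WithBot ℕ∞)
        = ringKrullDim (X'.presheaf.stalk x)) ∧
    Nonempty (X'.functionField ≃+* Y.functionField)

/-- The hypersurface `G = 0` has a function field, and every integral scheme of finite type over the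
integers whose function field is isomorphic to a function field of `G = 0` has a regular model
proper over the integers. -/
def HypersurfaceIsResolvable {K : Type} [Field K] {n : ℕ} (G : MvPolynomial (Fin (n + 2)) K) :
    Prop :=
  (∃ (F : Type) (_ : Field F) (_ : Algebra K F), IsFunctionField G F) ∧
  ∀ (F : Type) [Field F] [Algebra K F], IsFunctionField G F →
  ∀ (Y : Scheme.{0}) [IsIntegral Y] (s : Y ⟶ Spec (CommRingCat.of ℤ)),
    LocallyOfFiniteType s → QuasiCompact s → Nonempty (Y.functionField ≃+* F) →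
    HasRegularProperModel Y

/-- The form `b y_0 ^ d`. -/
noncomputable def monomialForm {K : Type} [Field K] (d : ℕ) (b : 𝓞 K) :
    MvPolynomial (Fin (0 + 1)) (𝓞 K) :=
  C b * X 0 ^ d

/-- The form `b y_0 ^ d + c y_1 ^ d`. -/
noncomputable def binaryForm {K : Type} [Field K] (d : ℕ) (b c : 𝓞 K) :
    MvPolynomial (Fin (1 + 1)) (𝓞 K) :=
  C b * X 0 ^ d + C c * X 1 ^ d

/-- The form `y_1 ^ 3 + a y_1 y_0 ^ 2 + b y_0 ^ 3`. -/
noncomputable def weierstrassForm {K : Type} [Field K] (a b : 𝓞 K) :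
    MvPolynomial (Fin (1 + 1)) (𝓞 K) :=
  X 1 ^ 3 + C a * X 1 * X 0 ^ 2 + C b * X 0 ^ 3

/-- The conditions on the coefficients of the Weierstrass equation `x ^ 2 = - (y ^ 3 + a y + b)`:
its discriminant is not zero, and the value at a critical point modulo `𝔭` is not in `𝔭 ^ 2`, nor
its sum with a square if `𝔭` contains `2`. -/
def IsAdmissibleWeierstrass {K : Type} [Field K] (a b : 𝓞 K) : Prop :=
  4 * a ^ 3 + 27 * b ^ 2 ≠ 0 ∧ ∀ 𝔭 : Ideal (𝓞 K), 𝔭.IsPrime → 𝔭 ≠ ⊥ →
    ∀ t : 𝓞 K, 3 * t ^ 2 + a ∈ 𝔭 → t ^ 3 + a * t + b ∉ 𝔭 ^ 2 ∧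
      (2 ∈ 𝔭 → ∀ e : 𝓞 K, t ^ 3 + a * t + b + e ^ 2 ∉ 𝔭 ^ 2)

theorem result :
    (∀ (K : Type) [Field K] [NumberField K] (n d : ℕ), 2 ≤ d →
      ∀ G : MvPolynomial (Fin (n + 3)) K, G.IsHomogeneous d → IsSmooth G →
      HasRegularEquations G → HypersurfaceIsResolvable (n := n + 1) G) ∧
    (∀ (K : Type) [Field K] [NumberField K] (d r k : ℕ), 3 ≤ d → 1 ≤ r + k →
      ∀ F : MvPolynomial (Fin (r + 1)) (𝓞 K), F.IsHomogeneous d → HasRegularSuspension d F →
      HypersurfaceIsResolvable (n := r + k) (tower d k (overK F))) ∧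
    (∀ (K : Type) [Field K] [NumberField K] (d r : ℕ), 3 ≤ d →
      ∀ F : MvPolynomial (Fin (r + 1)) (𝓞 K), IsAdmissible d F → HasRegularSuspension d F) ∧
    (∀ (K : Type) [Field K] [NumberField K] (d r : ℕ), 2 ≤ d → 1 ≤ r →
      ∀ F : MvPolynomial (Fin (r + 1)) (𝓞 K), IsCyclicAdmissible d F →
      HypersurfaceIsResolvable (n := r) (cyclicCover d (overK F))) ∧
    (∀ (K : Type) [Field K] [NumberField K] (d r k : ℕ), 3 ≤ d →
      ∀ F : MvPolynomial (Fin (r + 1)) (𝓞 K), F.IsHomogeneous d → HasRegularSuspension d F →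
      (∀ 𝔭 : Ideal (𝓞 K), 𝔭.IsPrime → 𝔭 ≠ ⊥ → CyclicWildCondition 𝔭 d (tower d 0 F)) →
      HypersurfaceIsResolvable (n := r + k + 1) (cyclicCover d (tower d k (overK F)))) ∧
    (∀ (K : Type) [Field K] [NumberField K] (d k : ℕ), 3 ≤ d → 1 ≤ k →
      ∀ b : 𝓞 K, IsAdmissibleCoefficient d b →
      HypersurfaceIsResolvable (n := 0 + k) (tower d k (overK (monomialForm d b)))) ∧
    (∀ d n : ℕ, 3 ≤ d → Squarefree n → (∀ p : ℕ, p.Prime → p ∣ d - 1 → p ∣ n) →
      IsAdmissibleCoefficient (K := ℚ) d n) ∧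
    (∀ (K : Type) [Field K] [NumberField K] (d k : ℕ), 3 ≤ d →
      ∀ b c : 𝓞 K, IsAdmissiblePair d b c →
      HypersurfaceIsResolvable (n := 1 + k) (tower d k (overK (binaryForm d b c)))) ∧
    (∀ d n : ℕ, 3 ≤ d → Squarefree n → (∀ p : ℕ, p.Prime → p ∣ d * (d - 1) → p ∣ n) →
      IsAdmissiblePair (K := ℚ) d n 1) ∧
    (∀ (K : Type) [Field K] [NumberField K] (k : ℕ) (a b : 𝓞 K), IsAdmissibleWeierstrass a b →
      HypersurfaceIsResolvable (n := 1 + k) (tower 3 k (overK (weierstrassForm a b)))) := by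
  have crit : ∀ (K : Type) [Field K] [NumberField K] (n : ℕ), 1 ≤ n → ∀ d : ℕ, 2 ≤ d →
      ∀ G : MvPolynomial (Fin (n + 2)) K, G.IsHomogeneous d → Pool.Agent.TH214.RM.Smooth G →
      Pool.Agent.TH214.RM.LocReg (𝓞 K) G → HypersurfaceIsResolvable G := by
    intro K _ _ n hn d hd G hG hsm hloc
    refine ⟨?_, ?_⟩
    · obtain ⟨F, _, _, x, h1, h2, h3, h4⟩ :=
        Pool.Agent.U234.RM.exists_field_homogeneous hn G d hd hG hsm
      exact ⟨F, _, _, x, h1, h2, h3, h4⟩
    · rintro F _ _ ⟨x, h1, h2, h3, h4⟩ Y _ s _ _ ⟨ε⟩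
      obtain ⟨X', hX', g, hg1, hg2, ⟨hg3⟩⟩ :=
        Pool.Agent.U234.RM.model_of_homogeneous hn G d hd hG hsm hloc x h1 h2 h3 h4
      exact ⟨X', hX', g, hg1, hg2, ⟨hg3.trans ε.symm⟩⟩
  have base : ∀ (K : Type) [Field K] [NumberField K] (d r : ℕ), 3 ≤ d →
      ∀ F : MvPolynomial (Fin (r + 1)) (𝓞 K), IsAdmissible d F → HasRegularSuspension d F := by
    rintro K _ _ d r hd F ⟨hF, hsm, hsec, hreg⟩
    exact Pool.Agent.TH214.RM.base_of_adm d hd F hF hsm hsec hreg
  have main : ∀ (K : Type) [Field K] [NumberField K] (d r k : ℕ), 3 ≤ d → 1 ≤ r + k →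
      ∀ F : MvPolynomial (Fin (r + 1)) (𝓞 K), F.IsHomogeneous d → HasRegularSuspension d F →
      HypersurfaceIsResolvable (n := r + k) (tower d k (overK F)) := by
    rintro K _ _ d r k hd hrk F hF ⟨hsm, hreg⟩
    obtain ⟨h1, h2, h3⟩ := Pool.Agent.TH214.RM.data_chain3 d hd k F hF hsm hreg
    exact crit K (r + k) hrk d (by omega) _ h1 h2 h3
  have main2 : ∀ (K : Type) [Field K] [NumberField K] (d r k : ℕ), 3 ≤ d → 1 ≤ r + k →
      ∀ F : MvPolynomial (Fin (r + 1)) (𝓞 K), IsAdmissible d F →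
      HypersurfaceIsResolvable (n := r + k) (tower d k (overK F)) :=
    fun K _ _ d r k hd hrk F hF => main K d r k hd hrk F hF.1 (base K d r hd F hF)
  have cyc : ∀ (K : Type) [Field K] [NumberField K] (d r k : ℕ), 3 ≤ d →
      ∀ F : MvPolynomial (Fin (r + 1)) (𝓞 K), F.IsHomogeneous d → HasRegularSuspension d F →
      (∀ 𝔭 : Ideal (𝓞 K), 𝔭.IsPrime → 𝔭 ≠ ⊥ → CyclicWildCondition 𝔭 d (tower d 0 F)) →
      HypersurfaceIsResolvable (n := r + k + 1) (cyclicCover d (tower d k (overK F))) := by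
    rintro K _ _ d r k hd F hF ⟨hsm, hreg⟩ hw
    obtain ⟨h1, h2, h3⟩ := Pool.Agent.TH214.RM.data_cyc_chain d hd k F hF hsm
      (fun 𝔭 hp h0 => ⟨hreg 𝔭 hp h0, hw 𝔭 hp h0⟩)
    exact crit K (r + k + 1) (by omega) d (by omega) _ h1 h2 h3
  have exq : ∀ d n : ℕ, 3 ≤ d → Squarefree n → (∀ p : ℕ, p.Prime → p ∣ d - 1 → p ∣ n) →
      IsAdmissibleCoefficient (K := ℚ) d n := by
    intro d n hd hn hdn
    refine ⟨fun h => hn.ne_zero (Nat.cast_eq_zero.1 h), fun 𝔭 hp h0 =>
      ⟨Pool.Agent.TH214.RM.rat_notMem_sq n hn 𝔭 hp, fun p hp' hpd hp𝔭 =>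
        Pool.Agent.TH214.RM.rat_add_pow_notMem n hn 𝔭 hp p hp' (hdn p hp' hpd) hp𝔭⟩⟩
  refine ⟨?_, main, base, ?_, cyc, ?_, exq, ?_, ?_, ?_⟩
  · intro K _ _ n d hd G hG hsm hloc
    have hloc' : Pool.Agent.TH214.RM.LocReg (𝓞 K) G := by
      intro 𝔭 hp h0
      obtain ⟨H, l, T, T', hl, hT, hH, hreg⟩ := hloc 𝔭 hp h0
      exact ⟨H, l, T, T', hl, hT, hH, Pool.Agent.TH214.RM.Reg.crit hreg⟩
    exact crit K (n + 1) (by omega) d hd G hG hsm hloc'
  · rintro K _ _ d r hd hr F ⟨hF, hsm, hreg⟩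
    obtain ⟨h1, h2, h3⟩ := Pool.Agent.TH214.RM.data_cyc d hd F hF hsm
      (fun 𝔭 hp h0 => ⟨Pool.Agent.TH214.RM.Reg.crit (hreg 𝔭 hp h0).1, (hreg 𝔭 hp h0).2⟩)
    exact crit K r (by omega) d (by omega) _ h1 h2 h3
  · rintro K _ _ d k hd hk b ⟨hb, hb2⟩
    obtain ⟨h1, h2, h3⟩ := Pool.Agent.TH214.RM.data_zero2 d hd b hb hb2
    exact main2 K d 0 k hd (by omega) (monomialForm d b)
      ⟨Pool.Agent.TH214.RM.isHomogeneous_zero d b, h1, h2, h3⟩
  · rintro K _ _ d k hd b c ⟨hb, hc, hbc⟩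
    obtain ⟨h1, h2, h3⟩ := Pool.Agent.TH214.RM.data_bin d hd b c hb hc hbc
    exact main2 K d 1 k hd (by omega) (binaryForm d b c)
      ⟨Pool.Agent.TH214.RM.bin_homog d b c, h1, h2, h3⟩
  · intro d n hd hn hdn
    obtain ⟨h0', h1⟩ := exq d n hd hn fun p hp' hpd => hdn p hp' (hpd.mul_left d)
    refine ⟨h0', one_ne_zero, fun 𝔭 hp h0 => ⟨?_, ?_, ?_⟩⟩
    · rw [mul_one]
      exact (h1 𝔭 hp h0).1
    · exact fun p hp' hpd hp𝔭 => ⟨(Ideal.ne_top_iff_one 𝔭).1 hp.ne_top,
        (h1 𝔭 hp h0).2 p hp' hpd hp𝔭⟩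
    · intro p hp' hpd hp𝔭 e
      have hpn := hdn p hp' (hpd.mul_right _)
      refine ⟨?_, ?_⟩
      · rw [one_mul]
        exact Pool.Agent.TH214.RM.rat_add_pow_notMem n hn 𝔭 hp p hp' hpn hp𝔭 e
      · intro h
        have h2 : (n : 𝓞 ℚ) ∈ 𝔭 := by
          obtain ⟨m, hm⟩ := hpn
          rw [hm, Nat.cast_mul]
          exact 𝔭.mul_mem_right _ hp𝔭
        have h3 := 𝔭.sub_mem (Ideal.pow_le_self (by norm_num) h) (𝔭.mul_mem_right (e ^ p) h2)
        rw [add_sub_cancel_right] at h3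
        exact (Ideal.ne_top_iff_one 𝔭).1 hp.ne_top h3
  · rintro K _ _ k a b ⟨hd, hab⟩
    obtain ⟨h1, h2, h3⟩ := Pool.Agent.TH214.RM.data_ell a b hd hab
    exact main2 K 3 1 k le_rfl (by omega) (weierstrassForm a b)
      ⟨Pool.Agent.TH214.RM.ell_homog a b, h1, h2, h3⟩

end Pool.Agent.Results.MP_4d1008_ag.HypersurfaceTowers
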