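import Pool.Agent.U234.Tow.Cls
import Pool.Agent.W418.Z.Reg

/-!
MP_4d1008_ag: regular models, proper over `ℤ`, in all dimensions, of the integral schemes of finite
type over a finite field `k` of characteristic `p` whose function fields are constructed from
function fields of surfaces, from varieties of bounded degree and from coverings of leveled systems
over products of surfaces, by all the operations for which models are known, in any order:

* products;
* families of varieties of bounded degree, and adjoining zeros of polynomials of degree less than
  `p` with controlled discriminants (the operations of AdmissibleTowersFinite);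
* systems of linear equations between powers of arbitrary exponents `p ^ e`, together with
  schön equations, whose coefficients are products of elements of the previous steps, and their
  coverings by Artin-Schreier equations and `p`-th roots (the operation of
  MP_19ffc6_ag.SystemTowers, which was not available for this problem);
* radicals of exponents prime to `p`;
* new base fields (`leveled`): coverings of leveled systems over products of surfaces, where
  arbitrary functions of the surfaces may occur in the Artin-Schreier equations, and products of
  such functions in the `p`-th roots (MP_b525bf_ag.FrobeniusLevels).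

Example: over the product `T` of smooth surfaces over `k`, take a component `X₁` of the system
`∑ j, c i j * (a j * x j ^ d j) ^ q j = b i` (`c i j, b i ∈ k`, `a j` functions on the surfaces, `q j`
powers of `p`, `p ∤ d j`), the covering `w ^ p - w = f 1 + ... + f m` of `X₁`, where the `f i` are
arbitrary functions on the surfaces, Weierstrass fibrations over it whose coefficients are functions
on one of the surfaces (`p ≥ 5`), and again a system of the above kind, where the new `a j` are
products of the coordinates of the previous steps. Each integral scheme of finite type over `ℤ` with
such a function field has a regular model which is proper over `ℤ`.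
-/

set_option autoImplicit false

open AlgebraicGeometry CategoryTheory Pool.Agent.U234.Tow

namespace Pool.Agent.Results.MP_4d1008_ag.MixedOperationTowers

/-- Let `k` be a finite field of characteristic `p`, and let `(K, P)` be a pair of an extension of
`k` and a set of its elements which is obtained by the operations of `IsMixedTower`. Then for every
integral scheme `Y` of finite type over `ℤ` whose function field is isomorphic to `K` there is a
regular integral scheme `X'`, proper over `ℤ`, with function field isomorphic to that of `Y`. -/
theorem result (p : ℕ) [Fact p.Prime] (k : Type) [Field k] [Finite k] [CharP k p] (K : Type)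
    [Field K] [Algebra k K] (P : Set K) (hP : IsMixedTower p k K P)
    (Y : Scheme.{0}) (_ : IsIntegral Y) (f : Y ⟶ Spec (CommRingCat.of ℤ))
    (_ : LocallyOfFiniteType f) (_ : QuasiCompact f) (_ : Nonempty (Y.functionField ≃+* K)) :
    ∃ (X' : Scheme.{0}) (_ : IsIntegral X') (g : X' ⟶ Spec (CommRingCat.of ℤ)),
      IsProper g ∧
      (∀ x : X',
        (((Module.finrank (IsLocalRing.ResidueField (X'.presheaf.stalk x))
            (IsLocalRing.CotangentSpace (X'.presheaf.stalk x)) : ℕ∞)) : WithBot ℕ∞)
          = ringKrullDim (X'.presheaf.stalk x)) ∧
      Nonempty (X'.functionField ≃+* Y.functionField) := by
  obtain ⟨ε⟩ := ‹Nonempty (Y.functionField ≃+* K)›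
  obtain ⟨T, I, hT, hI, M, hFr, -⟩ := mod_of_tower p k K P hP Empty (fun i => i.elim)
    (fun i => i.elim) (fun i => i.elim)
  obtain ⟨X', hX', g, h1, h2, ⟨h3⟩⟩ := Pool.Agent.W418.Z.regular_of_LM M (fun t z => by
    obtain ⟨a, ha, b, hb, hb0, rfl⟩ := hFr t z
    exact ⟨a, ha, b, hb, hb0, (div_eq_mul_inv _ _).symm⟩)
  exact ⟨X', hX', g, h1, h2, ⟨h3.trans ε.symm⟩⟩

end Pool.Agent.Results.MP_4d1008_ag.MixedOperationTowers
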