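import Pool.Agent.U197.GQ.V7

/-!
MP_4d1008_ag: regular proper models over `ℤ`, in all dimensions, for the function fields of the
quotients `X / G` of smooth projective varieties `X = Proj S` over finite fields of characteristic
`p` by finite groups `G`, which may be nonabelian, such that

* for every closed point `x`, the group of the elements of `G` which fix the point `x`, its residue
  field and the fibre of the sheaf `O(1)` at `x` has the order `1` or `p` (so the inertia groups of
  the action on `X` may have elements of order prime to `p`, as long as these act faithfully on the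
  fibre of `O(1)`),
* if the order is `p`, then `σ - 1` is nondegenerate at `x` with respect to some coordinates and
  weights, where `σ` generates the group. The coordinates, the weights and the number `l` may
  depend on the point.

There is no condition on the action on the sheaf `O(1)` (the file
`InertiaOfOrderP`, which had one and is replaced by this file, worked on the cone of `S`).

The proof. Let `S` be the homogeneous coordinate ring. The group acts on the cone of the subring
`V` of the elements with degrees divisible by `p` without the origin, and its inertia groups have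
the order `1` or `p`. An element `σ` of order `p` fixes the norm of a linear form, which is a
generator of the sheaf `O(p)` near the point if the linear form does not vanish there; so local
coordinates at a closed point and this generator are étale coordinates on the cone of `V` near the
line over `x`, and they give an invariant homogeneous regular weighted centre with nondegenerate
leading form (`niceC_V`). By the uniqueness of such centres (theorem `le_ordI` in
`Pool.Agent.U197.SF.D2`) the local centres of each element `σ` of order `p` glue to a filtration of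
the ring of functions on the invariant charts of the cone, and the gluing is again a regular
weighted centre (`GF_rwc`, `GF_lead`, `GF_hom`). The elements of order `p` of the group permute
their centres, and the intersection of all these filtrations is a regular weighted centre which is
stable under `G` (`SigFam.rwc`, `SigFam.loc`). The ring of invariants of its extended Rees algebra,
with the grading of the cone, is smooth after the tame part is taken away (`mb_of_centre`), and its
multigraded quotient is resolved by the toroidal part of the library.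
-/

set_option autoImplicit false

open AlgebraicGeometry CategoryTheory

namespace Pool.Agent.Results.MP_4d1008_ag.WildInertiaOfOrderP

section proj

variable {k S : Type} [Field k] [CommRing S] [Algebra k S]

/-- The structure morphism of `Proj` over `k`. -/
noncomputable def projStr (𝒜 : ℕ → Submodule k S) [GradedAlgebra 𝒜] :
    Proj 𝒜 ⟶ Spec (CommRingCat.of k) :=
  Proj.toSpecZero 𝒜 ≫ Spec.map (CommRingCat.ofHom (algebraMap k (𝒜 0)))

variable {G : Type} [Group G]

/-- The elements of the group which act trivially modulo the homogeneous ideal of the point `x`: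
they fix the point, its residue field, and the fibre of the sheaf `O(1)` at the point. -/
def inertia (𝒜 : ℕ → Submodule k S) [GradedAlgebra 𝒜] (ρ : G →* (S ≃ₐ[k] S))
    (x : ProjectiveSpectrum 𝒜) : Subgroup G where
  carrier := {g | ∀ s, ρ g s - s ∈ x.asHomogeneousIdeal}
  mul_mem' := (Pool.Agent.U197.GQ.InS ρ x.asHomogeneousIdeal.toIdeal).mul_mem'
  one_mem' := (Pool.Agent.U197.GQ.InS ρ x.asHomogeneousIdeal.toIdeal).one_mem'
  inv_mem' := (Pool.Agent.U197.GQ.InS ρ x.asHomogeneousIdeal.toIdeal).inv_mem'

variable [IsDomain S]

/-- The fraction `s / 1`. -/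
noncomputable abbrev fr (s : S) : FractionRing S := algebraMap S (FractionRing S) s

/-- The local ring of `Proj S` at the point `x`, inside the field of fractions of `S`: the fractions
`s / t` with `s` and `t` homogeneous of the same degree, where `t` does not vanish at `x`. -/
noncomputable def localRing (𝒜 : ℕ → Submodule k S) [GradedAlgebra 𝒜]
    (x : ProjectiveSpectrum 𝒜) : Subalgebra k (FractionRing S) where
  carrier := {y | ∃ n : ℕ, ∃ s ∈ 𝒜 n, ∃ t ∈ 𝒜 n, t ∉ x.asHomogeneousIdeal ∧ y = fr s / fr t}
  mul_mem' := fun ha hb => (Pool.Agent.U197.SF.lrx 𝒜 x).mul_mem' ha hb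
  add_mem' := fun ha hb => (Pool.Agent.U197.SF.lrx 𝒜 x).add_mem' ha hb
  algebraMap_mem' := (Pool.Agent.U197.SF.lrx 𝒜 x).algebraMap_mem'

/-- The extension of an automorphism to the field of fractions. -/
noncomputable def extend (σ : S ≃ₐ[k] S) : FractionRing S ≃ₐ[k] FractionRing S :=
  IsFractionRing.fieldEquivOfAlgEquiv k (FractionRing S) (FractionRing S) σ

/-- The field of the rational functions on the quotient of `Proj S` by the group: the fractions
`s / t` with `s` and `t` homogeneous of the same degree which are fixed by all elements of the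
group. -/
noncomputable def invariantFunctions (𝒜 : ℕ → Submodule k S) [GradedAlgebra 𝒜]
    (ρ : G →* (S ≃ₐ[k] S)) : IntermediateField k (FractionRing S) where
  carrier := {x | (∃ (d : ℕ) (s t : S), s ∈ 𝒜 d ∧ t ∈ 𝒜 d ∧ t ≠ 0 ∧ x = fr s / fr t) ∧
    ∀ g, extend (ρ g) x = x}
  mul_mem' := fun ha hb => (Pool.Agent.U197.GQ.KfS (Pool.Agent.U197.GQ.rhoF ρ) 𝒜).mul_mem' ha hb
  add_mem' := fun ha hb => (Pool.Agent.U197.GQ.KfS (Pool.Agent.U197.GQ.rhoF ρ) 𝒜).add_mem' ha hb
  algebraMap_mem' := (Pool.Agent.U197.GQ.KfS (Pool.Agent.U197.GQ.rhoF ρ) 𝒜).algebraMap_mem'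
  inv_mem' := fun _ ha => (Pool.Agent.U197.GQ.KfS (Pool.Agent.U197.GQ.rhoF ρ) 𝒜).inv_mem' _ ha

end proj

/-- Every integral scheme of finite type over `ℤ` with function field isomorphic to the field `F`
has a regular model which is proper over `ℤ`. -/
def HasRegularModels (F : Type) [Field F] : Prop :=
  ∀ (Y : Scheme.{0}) (_ : IsIntegral Y) (s : Y ⟶ Spec (CommRingCat.of ℤ))
    (_ : LocallyOfFiniteType s) (_ : QuasiCompact s) (_ : Nonempty (Y.functionField ≃+* F)),
    ∃ (X' : Scheme.{0}) (_ : IsIntegral X') (g : X' ⟶ Spec (CommRingCat.of ℤ)),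
      IsProper g ∧
      (∀ x : X',
        (((Module.finrank (IsLocalRing.ResidueField (X'.presheaf.stalk x))
            (IsLocalRing.CotangentSpace (X'.presheaf.stalk x)) : ℕ∞)) : WithBot ℕ∞)
          = ringKrullDim (X'.presheaf.stalk x)) ∧
      Nonempty (X'.functionField ≃+* Y.functionField)

section weights

/-- The ideal generated by the monomials of weight at least `d`. -/
def weightIdeal {O : Type} [CommRing O] {n : ℕ} (y : Fin n → O) (w : Fin n → ℕ) (d : ℕ) : Ideal O :=
  Ideal.span {c | ∃ α : Fin n → ℕ, d ≤ ∑ i, α i * w i ∧ c = ∏ i, y i ^ α i}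

variable {k K : Type} [Field k] [Field K] [Algebra k K]

/-- The ideal of `O` which is generated by the values in `O` of the map `δ` on `O`; for
`δ = σ - 1` this is the ideal of the scheme of fixed points. -/
def zeroIdeal (O : Subalgebra k K) (δ : K → K) : Ideal O :=
  Ideal.span {c | ∃ a : O, (c : K) = δ a}

/-- The map `δ` is nondegenerate with respect to the étale coordinates `y i` of `O`, the weights
`w i` and the number `l`. -/
structure Nondegenerate (O : Subalgebra k K) (δ : K → K) {n : ℕ} (y : Fin n → O) (w : Fin n → ℕ)
    (l : ℕ) : Prop where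
  /-- The number `l` is positive. -/
  pos : 0 < l
  /-- The differentials of the coordinates are a basis of the module of differentials. -/
  coordinates : ∃ b : Module.Basis (Fin n) O (Ω[O⁄k]), ∀ i, b i = KaehlerDifferential.D k O (y i)
  /-- All values of `δ` have the order at least `l`. -/
  order : ∀ a c : O, (c : K) = δ a → c ∈ weightIdeal y w l
  /-- The map `δ` raises the order of the coordinates by `l`. -/
  order_coordinate : ∀ i, ∀ c : O, (c : K) = δ (y i) → c ∈ weightIdeal y w (w i + l)
  /-- The coordinates of positive weight vanish at the zeros of `δ`. -/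
  zeros : ∀ i, 0 < w i → y i ∈ (zeroIdeal O δ).radical
  /-- The leading form of `δ` has no zeros outside the zero section: a power of every coordinate of
  positive weight is a combination of leading forms of values of `δ`, up to terms of higher
  weight. -/
  leading : ∀ i, 0 < w i → ∃ N : ℕ, y i ^ N ∈ weightIdeal y w (N * w i + 1) ⊔
    Ideal.span {c | ∃ e, ∃ a ∈ weightIdeal y w e, ∃ b ∈ weightIdeal y w (N * w i - (e + l)),
      ∃ z : O, (z : K) = δ a ∧ c = b * z}

/-- The local ring `O` has the residue field `k`, and the elements `y i` are parameters of `O`: they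
generate the maximal ideal `m` and they are linearly independent modulo the square of `m`. -/
structure Parameters (O : Subalgebra k K) {n : ℕ} (y : Fin n → O) : Prop where
  /-- The ring is local. -/
  isLocalRing : IsLocalRing O
  /-- The residue field is `k`. -/
  rational : ∀ a : O, ∃ c : k, a - algebraMap k O c ∈ IsLocalRing.maximalIdeal O
  /-- The parameters generate the maximal ideal. -/
  generate : Ideal.span (Set.range y) = IsLocalRing.maximalIdeal O
  /-- The parameters are independent. -/
  independent : ∀ c : Fin n → k, ∑ i, c i • y i ∈ IsLocalRing.maximalIdeal O ^ 2 → c = 0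

/-- The isolated zero of `δ` at a rational point with the parameters `y i` is nondegenerate with
respect to the weights `w i` and the number `l`. -/
structure IsolatedNondegenerate (O : Subalgebra k K) (δ : K → K) {n : ℕ} (y : Fin n → O)
    (w : Fin n → ℕ) (l : ℕ) : Prop where
  /-- The number `l` is positive. -/
  pos : 0 < l
  /-- The weights are positive. -/
  weight_pos : ∀ i, 0 < w i
  /-- The elements `y i` are parameters at a rational point. -/
  parameters : Parameters O y
  /-- The order of `δ (y i)` is at least `w i + l`. -/
  order : ∀ i, ∀ c : O, (c : K) = δ (y i) → c ∈ weightIdeal y w (w i + l)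
  /-- The leading forms of the elements `δ (y i)` have no common zeros. -/
  leading : ∀ i, ∃ N : ℕ, y i ^ N ∈ weightIdeal y w (N * w i + 1) ⊔
    Ideal.span {c | ∃ j, ∃ b ∈ weightIdeal y w (N * w i - (w j + l)),
      ∃ z : O, (z : K) = δ (y j) ∧ c = b * z}

end weights

section conversion

open Pool.Agent.U197.SF

variable {k K : Type} [Field k] [Field K] [Algebra k K] {O : Subalgebra k K} {δ : K → K}
  {n : ℕ} {y : Fin n → O} {w : Fin n → ℕ} {l : ℕ}

lemma ndk_of_nondegenerate (hδ : ∀ a ∈ O, δ a ∈ O) (h : Nondegenerate O δ y w l) :
    NDk (fun i => (y i : K)) w δ l O := by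
  refine ndk_of_ring hδ y w (fun a => h.order a _ rfl) (fun i => h.order_coordinate i _ rfl)
    h.zeros (fun i hi => ?_)
  obtain ⟨N, hN⟩ := h.leading i hi
  refine ⟨N, SetLike.le_def.1 (sup_le le_sup_left (le_trans (Ideal.span_mono ?_) le_sup_right)) hN⟩
  rintro c ⟨e, a, ha, b, hb, z, hz, rfl⟩
  refine ⟨e, a, ha, b, hb, ?_⟩
  congr 1
  exact Subtype.ext hz

lemma ndk_of_isolated {τ : K ≃ₐ[k] K} (hτO : ∀ x ∈ O, τ x ∈ O) [IsNoetherianRing O]
    (h : IsolatedNondegenerate O (fun a => τ a - a) y w l) :
    NDk (fun i => (y i : K)) w (fun a => τ a - a) l O := by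
  have _ := h.parameters.isLocalRing
  refine ndk_iso hτO y w h.pos h.weight_pos h.parameters.rational h.parameters.generate
    (fun i => h.order i _ rfl) (fun i => ?_)
  obtain ⟨N, hN⟩ := h.leading i
  refine ⟨N, SetLike.le_def.1 (sup_le le_sup_left (le_trans (Ideal.span_mono ?_) le_sup_right)) hN⟩
  rintro c ⟨j, b, hb, z, hz, rfl⟩
  refine ⟨j, b, hb, ?_⟩
  congr 1
  exact Subtype.ext hz

end conversion

/-- Let `k` be a finite field of characteristic `p`, and let `X = Proj S` be a smooth projective
variety over `k`, where `S` is a graded domain generated over `k` by its finite dimensional piece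
of degree one, which is not zero. Let `G` be a finite group which acts on `S` by graded
automorphisms, and faithfully on `X`. Suppose that for every closed point `x` of `X` the group
`inertia 𝒜 ρ x` has the order `1` or `p`, and that for every element `g` of order `p` of this group
`g - 1` is nondegenerate at `x`, or has a nondegenerate isolated zero at `x`, with respect to some
coordinates `y`, weights `w` and a number `l`. Then every integral scheme of finite type over `ℤ`
whose function field is isomorphic to the function field of the quotient of `X` by `G` has a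
regular model proper over `ℤ`. -/
theorem result (p : ℕ) [Fact p.Prime] (k : Type) [Field k] [Finite k] [CharP k p]
    (S : Type) [CommRing S] [IsDomain S] [Algebra k S] (𝒜 : ℕ → Submodule k S) [GradedAlgebra 𝒜]
    (hfin : Module.Finite k (𝒜 1)) (hgen : Algebra.adjoin k (𝒜 1 : Set S) = ⊤)
    (hne : ∃ s ∈ 𝒜 1, s ≠ 0) (hX : AlgebraicGeometry.Smooth (projStr 𝒜))
    (G : Type) [Group G] [Finite G] (ρ : G →* (S ≃ₐ[k] S))
    (hρ : ∀ g n, ∀ s ∈ 𝒜 n, ρ g s ∈ 𝒜 n)
    (hfaith : ∀ g, (∀ n, ∀ s ∈ 𝒜 n, ∀ t ∈ 𝒜 n, ρ g s * t = s * ρ g t) → g = 1)
    (hin : ∀ x : ProjectiveSpectrum 𝒜, IsClosed ({x} : Set (ProjectiveSpectrum 𝒜)) →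
      Nat.card (inertia 𝒜 ρ x) = 1 ∨ Nat.card (inertia 𝒜 ρ x) = p)
    (hloc : ∀ x : ProjectiveSpectrum 𝒜, IsClosed ({x} : Set (ProjectiveSpectrum 𝒜)) →
      ∀ g ∈ inertia 𝒜 ρ x, g ≠ 1 → g ^ p = 1 →
        ∃ (n : ℕ) (y : Fin n → localRing 𝒜 x) (w : Fin n → ℕ) (l : ℕ),
          Nondegenerate (localRing 𝒜 x) (fun a => extend (ρ g) a - a) y w l ∨
            IsolatedNondegenerate (localRing 𝒜 x) (fun a => extend (ρ g) a - a) y w l) :
    HasRegularModels (invariantFunctions 𝒜 ρ) := by
  intro Y hY s hs1 hs2 ⟨e⟩
  obtain ⟨m, b, hb, hb0, hbg⟩ := Pool.Agent.U197.SF.exists_basis 𝒜 hgen hne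
  obtain ⟨X', hX', g, hg, hreg, ⟨e'⟩⟩ := Pool.Agent.U197.GQ.regV p ρ hρ hgen hne hfin hX hfaith
    (fun x hx => hin x hx) (fun σ hσ1 hσp x hx hσx => by
      obtain ⟨n, y, w, l, h1⟩ := hloc x hx σ hσx hσ1 hσp
      have hfix := Pool.Agent.U197.GQ.fixed_of_InS ρ hσx
      have hσit : ∀ s, (ρ σ)^[p] s = s := by
        intro s
        rw [Pool.Agent.U197.GQ.iter_rho, hσp, map_one]
        rfl
      have hτO : ∀ a ∈ localRing 𝒜 x, extend (ρ σ) a ∈ localRing 𝒜 x :=
        Pool.Agent.U197.SF.tau_mem_lrx 𝒜 (ρ σ) (hρ σ) hfix
      have hfam := Pool.Agent.U197.SF.chartFam 𝒜 b hb hb0 hbg (p := p) (ρ σ) (hρ σ) hσit hX hfix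
      obtain ⟨hs1, hs2, hs3⟩ := hfam.smooth
      rcases h1 with h1 | h1
      · exact ⟨n, fun i => (y i : FractionRing S), w, l, fun i => (y i).2, h1.pos,
          h1.coordinates, ndk_of_nondegenerate
            (fun a ha => Subalgebra.sub_mem _ (hτO a ha) ha) h1⟩
      · have hs1' : Algebra.FormallySmooth k (localRing 𝒜 x) := hs1
        have hs2' : Algebra.EssFiniteType k (localRing 𝒜 x) := hs2
        have hs3' : IsNoetherianRing (localRing 𝒜 x) := hs3
        have hb1 := @Pool.Agent.U197.SF.basis_of_params k (localRing 𝒜 x) _ _
          h1.parameters.isLocalRing _ hs1' hs2' n y h1.parameters.rational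
          h1.parameters.generate h1.parameters.independent
        exact ⟨n, fun i => (y i : FractionRing S), w, l, fun i => (y i).2, h1.pos, hb1,
          ndk_of_isolated hτO h1⟩)
  exact ⟨X', hX', g, hg, hreg, ⟨e'.trans e.symm⟩⟩

end Pool.Agent.Results.MP_4d1008_ag.WildInertiaOfOrderP
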